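import Pool.Agent.R489.HC.Stm

set_option autoImplicit false

namespace Pool.Agent.R12.HC

open Pool.Agent.R489.HC

theorem le_one_of_gam {V : Type} [DecidableEq V] {G : SimpleGraph V} {p : V → ℝ}
    (hp : p ∈ Gam G) (x : V) : p x ≤ 1 := by
  rcases hp with ⟨u, rfl⟩ | ⟨u, w, -, s, hs0, hs1, rfl⟩
  · by_cases h : x = u
    · subst h
      rw [Pi.single_eq_same]
    · rw [Pi.single_eq_of_ne h]
      norm_num
  · rw [Pi.add_apply]
    by_cases h : x = u <;> by_cases h' : x = w
    · rw [← h, ← h', Pi.single_eq_same, Pi.single_eq_same]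
      linarith
    · rw [← h, Pi.single_eq_same, Pi.single_eq_of_ne h']
      linarith
    · rw [← h', Pi.single_eq_same, Pi.single_eq_of_ne h]
      linarith
    · rw [Pi.single_eq_of_ne h, Pi.single_eq_of_ne h']
      norm_num

/-- the infimum is attained -/
theorem ATT0 (V : Type) [Fintype V] [DecidableEq V] (G : SimpleGraph V) (p q : V → ℝ)
    (hp : p ∈ Gam G) (hq : q ∈ Gam G) :
    dist G p q ≤ ENNReal.ofReal (1 / 2) ↔ ∃ l ∈ Lengths G p q, l ≤ 1 / 2 := by
  classical
  constructor
  · intro h
    by_contra hcon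
    push Not at hcon
    let F : Finset ℝ := (Finset.univ.image (fun u : V => |p u - q u|)) ∪
      (Finset.univ.image (fun u : V => (1 - p u) + (1 - q u)))
    have hF : ∀ l ∈ Lengths G p q, l ∈ F ∨ 1 ≤ l := by
      rintro l (⟨u, w, -, -, -, rfl⟩ | ⟨u, w, k, -, -, rfl⟩)
      · exact Or.inl (Finset.mem_union_left _ (Finset.mem_image.mpr ⟨u, Finset.mem_univ u, rfl⟩))
      · rcases Nat.eq_zero_or_pos k.length with h0 | h0
        · left
          have huw : u = w := SimpleGraph.Walk.eq_of_length_eq_zero h0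
          subst huw
          refine Finset.mem_union_right _ (Finset.mem_image.mpr ⟨u, Finset.mem_univ u, ?_⟩)
          rw [h0]
          simp
        · right
          have h1 : (1 : ℝ) ≤ (k.length : ℝ) := by exact_mod_cast h0
          have h2 := le_one_of_gam hp u
          have h3 := le_one_of_gam hq w
          linarith
    let S : Finset ℝ := insert 1 (F.filter (fun x => 1 / 2 < x))
    have hS : S.Nonempty := ⟨1, Finset.mem_insert_self 1 _⟩
    obtain ⟨d, hdS, hdmin⟩ := S.exists_min_image id hS
    have hd : 1 / 2 < d := by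
      rcases Finset.mem_insert.mp hdS with h1 | h1
      · rw [h1]
        norm_num
      · exact (Finset.mem_filter.mp h1).2
    have hle : ∀ l ∈ Lengths G p q, d ≤ l := by
      intro l hl
      rcases hF l hl with h1 | h1
      · exact hdmin l (Finset.mem_insert_of_mem (Finset.mem_filter.mpr ⟨h1, hcon l hl⟩))
      · exact (hdmin 1 (Finset.mem_insert_self 1 _)).trans h1
    have h1 : ENNReal.ofReal d ≤ dist G p q :=
      le_iInf₂ (fun l hl => ENNReal.ofReal_le_ofReal (hle l hl))
    have h2 : ENNReal.ofReal (1 / 2) < ENNReal.ofReal d :=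
      (ENNReal.ofReal_lt_ofReal_iff (by linarith)).mpr hd
    exact absurd (h1.trans h) (not_le.mpr h2)
  · rintro ⟨l, hl, hl2⟩
    exact (iInf₂_le l hl).trans (ENNReal.ofReal_le_ofReal hl2)

theorem ATT : S_ATT := fun V _ _ G p q hp hq => ATT0 V G p q hp hq

end Pool.Agent.R12.HC
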